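import Mathlib

/-!
# Integers between `10 ^ n * π` and `π / arctan (10 ^ (- n))`

`Hit n k`: the integer `k` lies in the interval `I_n`; `Bad n`: some integer lies in `I_n`.

A `k` in `I_n` gives a decimal fraction `k / 10 ^ n` in `(π, π + 1.06 / 10 ^ (2 n))`. Two such fractions for `n < m < 2 n` are
equal, because their difference is a multiple of `1 / 10 ^ m` which is smaller than `1.06 / 10 ^ (2 n)`. So the bad `n` are
intervals `[a_i, b_i]` with `2 b_i ≤ a_(i+1)`; an infinite interval would give `k / 10 ^ n = π`.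
-/

set_option autoImplicit false

namespace Pool.Agent.Results.MP_39f7c5_nt.DoublingGaps

open Real

/-- the integer `k` lies in `I_n` -/
def Hit (n : ℕ) (k : ℤ) : Prop := (10 : ℝ) ^ n * π < k ∧ (k : ℝ) < π / arctan (1 / 10 ^ n)

/-- `I_n` contains an integer -/
def Bad (n : ℕ) : Prop := ∃ k : ℤ, Hit n k

private theorem arctan_lower (x : ℝ) (hx : 0 ≤ x) : x - x ^ 3 / 3 ≤ arctan x := by
  have hd : ∀ y : ℝ, HasDerivAt (fun y => arctan y - (y - y ^ 3 / 3)) (1 / (1 + y ^ 2) - (1 - 3 * y ^ 2 / 3)) y := by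
    intro y
    have h1 : HasDerivAt (fun y : ℝ => y - y ^ 3 / 3) (1 - 3 * y ^ 2 / 3) y := by
      have h0 : HasDerivAt (fun y : ℝ => y ^ 3) (3 * y ^ 2) y := by
        simpa using hasDerivAt_pow 3 y
      exact (hasDerivAt_id' y).sub (h0.div_const 3)
    exact (hasDerivAt_arctan y).sub h1
  have hm : Monotone (fun y : ℝ => arctan y - (y - y ^ 3 / 3)) := by
    refine monotone_of_deriv_nonneg (fun y => (hd y).differentiableAt) fun y => ?_
    rw [(hd y).deriv]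
    have h3 : (0 : ℝ) < 1 + y ^ 2 := by positivity
    rw [sub_nonneg, le_div_iff₀ h3]
    nlinarith [sq_nonneg (y ^ 2)]
  have h := hm hx
  simp only [arctan_zero] at h
  linarith

private theorem arctan_upper (x : ℝ) (hx : 0 ≤ x) (hx2 : x ≤ 1 / 2) : arctan x ≤ x - x ^ 3 / 4 := by
  have hd : ∀ y : ℝ, HasDerivAt (fun y => (y - y ^ 3 / 4) - arctan y) ((1 - 3 * y ^ 2 / 4) - 1 / (1 + y ^ 2)) y := by
    intro y
    have h1 : HasDerivAt (fun y : ℝ => y - y ^ 3 / 4) (1 - 3 * y ^ 2 / 4) y := by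
      have h0 : HasDerivAt (fun y : ℝ => y ^ 3) (3 * y ^ 2) y := by
        simpa using hasDerivAt_pow 3 y
      exact (hasDerivAt_id' y).sub (h0.div_const 4)
    exact h1.sub (hasDerivAt_arctan y)
  have hm : MonotoneOn (fun y : ℝ => (y - y ^ 3 / 4) - arctan y) (Set.Icc 0 (1 / 2)) := by
    refine monotoneOn_of_deriv_nonneg (convex_Icc _ _) (fun y _ => (hd y).continuousAt.continuousWithinAt)
      (fun y _ => (hd y).differentiableAt.differentiableWithinAt) fun y hy => ?_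
    rw [interior_Icc] at hy
    rw [(hd y).deriv]
    have h3 : (0 : ℝ) < 1 + y ^ 2 := by positivity
    rw [sub_nonneg, div_le_iff₀ h3]
    have h4 : y ^ 2 ≤ 1 / 4 := by nlinarith [hy.1, hy.2]
    nlinarith [sq_nonneg y, mul_nonneg (sq_nonneg y) (sub_nonneg.2 h4)]
  have h := hm (Set.left_mem_Icc.2 (by norm_num)) ⟨hx, hx2⟩ hx
  simp only [arctan_zero] at h
  linarith

private theorem x_le (n : ℕ) (hn : 1 ≤ n) : (1 : ℝ) / 10 ^ n ≤ 1 / 10 := by
  apply one_div_le_one_div_of_le (by norm_num)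
  calc (10 : ℝ) = 10 ^ 1 := (pow_one _).symm
    _ ≤ 10 ^ n := pow_le_pow_right₀ (by norm_num) hn

/-- the decimal fraction of an integer in `I_n` is close to `π` -/
private theorem hit_close (n : ℕ) (hn : 1 ≤ n) (k : ℤ) (h : Hit n k) :
    π < k / 10 ^ n ∧ (k : ℝ) / 10 ^ n < π + 1.06 / (10 ^ n) ^ 2 := by
  obtain ⟨h1, h2⟩ := h
  have hp : (0 : ℝ) < 10 ^ n := by positivity
  have h3 : π < k / 10 ^ n := by rw [lt_div_iff₀ hp]; linarith
  refine ⟨h3, ?_⟩
  obtain ⟨x, hx⟩ : ∃ x : ℝ, x = 1 / 10 ^ n := ⟨_, rfl⟩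
  have hx0 : 0 < x := by rw [hx]; positivity
  have hx1 : x ≤ 1 / 10 := by rw [hx]; exact x_le n hn
  rw [← hx] at h2
  obtain ⟨r, hr⟩ : ∃ r : ℝ, r = k / 10 ^ n := ⟨_, rfl⟩
  have hk : (k : ℝ) * x = r := by rw [hr, hx]; ring
  have hat : 0 < arctan x := arctan_pos.2 hx0
  have h4 : (k : ℝ) * arctan x < π := by rwa [lt_div_iff₀ hat] at h2
  have hk0 : (0 : ℝ) < k := lt_trans (by positivity) h1
  have h5 : (k : ℝ) * (x - x ^ 3 / 3) ≤ k * arctan x := mul_le_mul_of_nonneg_left (arctan_lower x hx0.le) hk0.le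
  have h6 : (k : ℝ) * (x - x ^ 3 / 3) = r * (1 - x ^ 2 / 3) := by rw [← hk]; ring
  have h7 : r * (1 - x ^ 2 / 3) < π := by linarith
  have hxx : x ^ 2 ≤ 1 / 100 := by nlinarith
  have hr0 : 0 < r := by rw [← hk]; positivity
  have hpi := pi_lt_d2
  have h8 : r < 3.17 := by nlinarith
  have h9 : (1.06 : ℝ) / (10 ^ n) ^ 2 = 1.06 * x ^ 2 := by rw [hx]; field_simp
  rw [← hr, h9]
  have hx2 : 0 < x ^ 2 := by positivity
  nlinarith

/-- a decimal fraction which is close to `π` gives an integer in `I_j` -/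
private theorem close_hit (j : ℕ) (hj : 1 ≤ j) (k : ℤ) (h1 : π < (k : ℝ) / 10 ^ j)
    (h2 : (k : ℝ) / 10 ^ j ≤ π + 0.75 / (10 ^ j) ^ 2) : Hit j k := by
  have hp : (0 : ℝ) < 10 ^ j := by positivity
  refine ⟨?_, ?_⟩
  · rw [lt_div_iff₀ hp] at h1
    linarith
  obtain ⟨x, hx⟩ : ∃ x : ℝ, x = 1 / 10 ^ j := ⟨_, rfl⟩
  have hx0 : 0 < x := by rw [hx]; positivity
  have hx1 : x ≤ 1 / 10 := by rw [hx]; exact x_le j hj
  rw [← hx]
  obtain ⟨r, hr⟩ : ∃ r : ℝ, r = k / 10 ^ j := ⟨_, rfl⟩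
  have hk : (k : ℝ) * x = r := by rw [hr, hx]; ring
  have hat : 0 < arctan x := arctan_pos.2 hx0
  rw [lt_div_iff₀ hat]
  have h9 : (0.75 : ℝ) / (10 ^ j) ^ 2 = 0.75 * x ^ 2 := by rw [hx]; field_simp
  rw [← hr] at h1
  rw [← hr, h9] at h2
  have hpi := pi_gt_three
  have hr3 : 3 < r := by linarith
  have hk0 : (0 : ℝ) < k := by
    by_contra hc
    rw [not_lt] at hc
    have : r ≤ 0 := by rw [← hk]; exact mul_nonpos_of_nonpos_of_nonneg hc hx0.le
    linarith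
  have h5 : (k : ℝ) * arctan x ≤ k * (x - x ^ 3 / 4) :=
    mul_le_mul_of_nonneg_left (arctan_upper x hx0.le (by linarith)) hk0.le
  have h6 : (k : ℝ) * (x - x ^ 3 / 4) = r * (1 - x ^ 2 / 4) := by rw [← hk]; ring
  have hx2 : 0 < x ^ 2 := by positivity
  nlinarith

/-- the decimal fractions for `n < m < 2 n` are the same -/
private theorem hit_eq (n m : ℕ) (hnm : n < m) (hm : m < 2 * n) (k k' : ℤ) (h : Hit n k) (h' : Hit m k') :
    k' = k * 10 ^ (m - n) := by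
  obtain ⟨a1, a2⟩ := hit_close n (by omega) k h
  obtain ⟨b1, b2⟩ := hit_close m (by omega) k' h'
  have hn0 : (0 : ℝ) < 10 ^ n := by positivity
  have hm0 : (0 : ℝ) < 10 ^ m := by positivity
  obtain ⟨d, rfl⟩ := Nat.exists_eq_add_of_lt hnm
  obtain ⟨c, hc⟩ := Nat.exists_eq_add_of_lt hm
  have hsub : n + d + 1 - n = d + 1 := by omega
  rw [hsub]
  -- `10 ^ m * 10 ≤ (10 ^ n) ^ 2`
  have hpow : (10 : ℝ) ^ (n + d + 1) * 10 ≤ (10 ^ n) ^ 2 := by
    rw [← pow_succ, ← pow_mul]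
    exact pow_le_pow_right₀ (by norm_num) (by omega)
  have hpow2 : ((10 : ℝ) ^ n) ^ 2 ≤ (10 ^ (n + d + 1)) ^ 2 := by
    rw [← pow_mul, ← pow_mul]
    exact pow_le_pow_right₀ (by norm_num) (by omega)
  have hb3 : (1.06 : ℝ) / (10 ^ (n + d + 1)) ^ 2 ≤ 1.06 / (10 ^ n) ^ 2 :=
    div_le_div_of_nonneg_left (by norm_num) (by positivity) hpow2
  have hb4 : (1.06 : ℝ) / (10 ^ n) ^ 2 * 10 ^ (n + d + 1) ≤ 0.106 := by
    rw [div_mul_eq_mul_div, div_le_iff₀ (by positivity)]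
    nlinarith
  have e1 : (k : ℝ) / 10 ^ n * 10 ^ (n + d + 1) = k * 10 ^ (d + 1) := by
    rw [show n + d + 1 = n + (d + 1) by omega, pow_add]
    field_simp
  have e2 : (k' : ℝ) / 10 ^ (n + d + 1) * 10 ^ (n + d + 1) = k' := by field_simp
  have l1 : (k' : ℝ) - k * 10 ^ (d + 1) < 1 := by
    rw [← e1, ← e2, e2]
    have h1 : (k' : ℝ) = k' / 10 ^ (n + d + 1) * 10 ^ (n + d + 1) := e2.symm
    rw [h1, ← sub_mul]
    have h2 : (k' : ℝ) / 10 ^ (n + d + 1) - k / 10 ^ n < 1.06 / (10 ^ n) ^ 2 := by linarith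
    calc _ < (1.06 : ℝ) / (10 ^ n) ^ 2 * 10 ^ (n + d + 1) := mul_lt_mul_of_pos_right h2 hm0
      _ ≤ 0.106 := hb4
      _ < 1 := by norm_num
  have l2 : (k : ℝ) * 10 ^ (d + 1) - k' < 1 := by
    have h1 : (k' : ℝ) = k' / 10 ^ (n + d + 1) * 10 ^ (n + d + 1) := e2.symm
    rw [← e1, h1, ← sub_mul]
    have h2 : (k : ℝ) / 10 ^ n - k' / 10 ^ (n + d + 1) < 1.06 / (10 ^ n) ^ 2 := by linarith
    calc _ < (1.06 : ℝ) / (10 ^ n) ^ 2 * 10 ^ (n + d + 1) := mul_lt_mul_of_pos_right h2 hm0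
      _ ≤ 0.106 := hb4
      _ < 1 := by norm_num
  have i1 : k' - k * 10 ^ (d + 1) < 1 := by exact_mod_cast l1
  have i2 : k * 10 ^ (d + 1) - k' < 1 := by exact_mod_cast l2
  omega

private theorem bad_convex (n m : ℕ) (hnm : n < m) (hm : m < 2 * n) (h : Bad n) (h' : Bad m) (j : ℕ) (hj : n ≤ j)
    (hj' : j ≤ m) : Bad j := by
  obtain ⟨k, hk⟩ := h
  obtain ⟨k', hk'⟩ := h'
  have he := hit_eq n m hnm hm k k' hk hk'
  rcases Nat.lt_or_ge j m with hlt | hge
  swap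
  · have : j = m := le_antisymm hj' hge
    rw [this]
    exact ⟨k', hk'⟩
  obtain ⟨a1, a2⟩ := hit_close m (by omega) k' hk'
  refine ⟨k * 10 ^ (j - n), close_hit j (by omega) _ ?_ ?_⟩
  all_goals
    have e1 : ((k * 10 ^ (j - n) : ℤ) : ℝ) / 10 ^ j = (k' : ℝ) / 10 ^ m := by
      rw [he]
      push_cast
      rw [div_eq_div_iff (by positivity) (by positivity), mul_assoc, mul_assoc, ← pow_add, ← pow_add]
      congr 2
      omega
    rw [e1]
  · exact a1
  · refine a2.le.trans ?_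
    have h1 : (10 : ℝ) ^ j * 10 ≤ 10 ^ m := by
      rw [← pow_succ]
      exact pow_le_pow_right₀ (by norm_num) (by omega)
    have h2 : (0 : ℝ) < 10 ^ j := by positivity
    have h3 : (1.06 : ℝ) / (10 ^ m) ^ 2 ≤ 0.75 / (10 ^ j) ^ 2 := by
      rw [div_le_div_iff₀ (by positivity) (by positivity)]
      nlinarith [mul_le_mul h1 h1 (by positivity) (by positivity)]
    linarith

private theorem good_infinite (N : ℕ) : ∃ n, N ≤ n ∧ ¬ Bad n := by
  by_contra hno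
  have hb : ∀ n, N ≤ n → Bad n := fun n hn => by
    by_contra h
    exact hno ⟨n, hn, h⟩
  obtain ⟨K, hK⟩ := hb (N + 2) (by omega)
  have hall : ∀ i, Hit (N + 2 + i) (K * 10 ^ i) := by
    intro i
    induction i with
    | zero => simpa using hK
    | succ i ih =>
      obtain ⟨k', hk'⟩ := hb (N + 2 + (i + 1)) (by omega)
      have h1 := hit_eq (N + 2 + i) (N + 2 + (i + 1)) (by omega) (by omega) _ _ ih hk'
      have h2 : N + 2 + (i + 1) - (N + 2 + i) = 1 := by omega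
      rw [h2, pow_one, mul_assoc, ← pow_succ] at h1
      rw [← h1]
      exact hk'
  have h0 := (hit_close (N + 2) (by omega) K hK).1
  obtain ⟨δ, hδ⟩ : ∃ δ : ℝ, δ = K / 10 ^ (N + 2) - π := ⟨_, rfl⟩
  have hδ0 : 0 < δ := by rw [hδ]; linarith
  obtain ⟨i, hi⟩ := exists_nat_gt (1.06 / δ)
  have h1 := (hit_close (N + 2 + i) (by omega) _ (hall i)).2
  have e1 : ((K * 10 ^ i : ℤ) : ℝ) / 10 ^ (N + 2 + i) = K / 10 ^ (N + 2) := by
    push_cast
    rw [pow_add 10 (N + 2) i]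
    field_simp
  rw [e1] at h1
  have h2 : δ < 1.06 / (10 ^ (N + 2 + i)) ^ 2 := by rw [hδ]; linarith
  have h3 : (i : ℝ) ≤ (10 ^ (N + 2 + i)) ^ 2 := by
    have h4 : i < 10 ^ (N + 2 + i) := lt_of_lt_of_le (Nat.lt_pow_self (by norm_num : 1 < 10))
      (Nat.pow_le_pow_right (by norm_num) (by omega))
    have h5 : (i : ℝ) ≤ 10 ^ (N + 2 + i) := by exact_mod_cast h4.le
    have h6 : (1 : ℝ) ≤ 10 ^ (N + 2 + i) := one_le_pow₀ (by norm_num)
    nlinarith
  have h7 : (0 : ℝ) < (10 ^ (N + 2 + i)) ^ 2 := by positivity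
  rw [lt_div_iff₀ h7] at h2
  rw [div_lt_iff₀ hδ0] at hi
  nlinarith

private theorem not_bad_zero : ¬ Bad 0 := by
  rintro ⟨k, h1, h2⟩
  rw [pow_zero, one_mul] at h1
  rw [pow_zero, div_one, arctan_one] at h2
  have h3 : π / (π / 4) = 4 := by
    have := pi_pos
    field_simp
  rw [h3] at h2
  have h4 : (3 : ℝ) < k := lt_trans pi_gt_three h1
  have h5 : (3 : ℤ) < k := by exact_mod_cast h4
  have h6 : k < (4 : ℤ) := by exact_mod_cast h2
  omega

private theorem free_block (N : ℕ) : ∃ n, N ≤ n ∧ ∀ m, n < m → m < 2 * n → ¬ Bad m := by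
  classical
  by_cases hb : ∃ n0, N ≤ n0 ∧ Bad n0
  swap
  · exact ⟨N, le_rfl, fun m hm _ hbm => hb ⟨m, hm.le, hbm⟩⟩
  obtain ⟨n0, hn0, hbad⟩ := hb
  have hex : ∃ g, n0 < g ∧ ¬ Bad g := by
    obtain ⟨g, hg, hg'⟩ := good_infinite (n0 + 1)
    exact ⟨g, hg, hg'⟩
  obtain ⟨hg1, hg2⟩ := Nat.find_spec hex
  have hmin : ∀ g, g < Nat.find hex → n0 < g → Bad g := by
    intro g hg hng
    have := Nat.find_min hex hg
    by_contra h
    exact this ⟨hng, h⟩
  obtain ⟨g, hgd⟩ : ∃ g, g = Nat.find hex := ⟨_, rfl⟩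
  rw [← hgd] at hg1 hg2 hmin
  have hbn : Bad (g - 1) := by
    rcases Nat.lt_or_ge n0 (g - 1) with h | h
    · exact hmin _ (by omega) h
    · have : g - 1 = n0 := by omega
      rw [this]
      exact hbad
  refine ⟨g - 1, by omega, fun m hm hm2 hbm => hg2 ?_⟩
  exact bad_convex (g - 1) m hm hm2 hbn hbm g (by omega) (by omega)

open Classical in
/-- If `n < m < 2 n` are bad, then everything between is bad; there are arbitrarily large `n` with no bad `m` between `n` and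
`2 n`; for arbitrarily large `M` at most half of the `m < M` are bad. -/
theorem result :
    (∀ n m, n < m → m < 2 * n → Bad n → Bad m → ∀ j, n ≤ j → j ≤ m → Bad j) ∧
    (∀ N, ∃ n, N ≤ n ∧ ∀ m, n < m → m < 2 * n → ¬ Bad m) ∧
    ∀ N, ∃ M, N ≤ M ∧ 0 < M ∧ 2 * ((Finset.range M).filter Bad).card ≤ M := by
  refine ⟨fun n m h1 h2 h3 h4 j h5 h6 => bad_convex n m h1 h2 h3 h4 j h5 h6, free_block, fun N => ?_⟩
  obtain ⟨n, hn, hfree⟩ := free_block (N + 1)
  refine ⟨2 * n, by omega, by omega, ?_⟩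
  have hsub : (Finset.range (2 * n)).filter Bad ⊆ Finset.Icc 1 n := by
    intro m hm
    obtain ⟨h1, h2⟩ := Finset.mem_filter.1 hm
    rw [Finset.mem_range] at h1
    rw [Finset.mem_Icc]
    refine ⟨?_, ?_⟩
    · rcases Nat.eq_zero_or_pos m with h | h
      · rw [h] at h2
        exact absurd h2 not_bad_zero
      · exact h
    · by_contra h
      exact hfree m (by omega) h1 h2
  have := Finset.card_le_card hsub
  rw [Nat.card_Icc] at this
  omega

end Pool.Agent.Results.MP_39f7c5_nt.DoublingGaps
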